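import Mathlib

/-!
Variation of the logarithm along a path, and the square relation for two curves that can be
pulled apart by arbitrarily small moves.
-/

set_option autoImplicit false

namespace Pool.Agent.Lib.Pb0fea6

open Complex

/-- existence of continuous logarithms on simply connected spaces -/
theorem exists_lift {A : Type*} [TopologicalSpace A] [SimplyConnectedSpace A]
    [LocallyPathConnectedSpace A] [Nonempty A] (g : A → ℂ) (hg : Continuous g)
    (h0 : ∀ a, g a ≠ 0) : ∃ L : A → ℂ, Continuous L ∧ ∀ a, exp (L a) = g a := by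
  obtain ⟨a₀⟩ := ‹Nonempty A›
  obtain ⟨F, ⟨-, hF⟩, -⟩ := Complex.isCoveringMapOn_exp.existsUnique_continuousMap_lifts
    (⟨g, hg⟩ : C(A, ℂ)) (a₀ := a₀) (e₀ := log (g a₀)) (by simp [exp_log (h0 a₀)])
    (fun a => by simpa using h0 a)
  exact ⟨F, F.continuous, fun a => congrFun hF a⟩

/-- two continuous logarithms of the same function on `ℝ` have the same increments -/
theorem lift_unique (L L' : ℝ → ℂ) (hL : Continuous L) (hL' : Continuous L')
    (h : ∀ t, exp (L t) = exp (L' t)) : L 1 - L 0 = L' 1 - L' 0 := by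
  have hu := (Complex.isCoveringMapOn_exp.existsUnique_continuousMap_lifts
    (⟨fun t => exp (L t), by fun_prop⟩ : C(ℝ, ℂ)) (a₀ := 0) (e₀ := L 0) (by simp)
    (fun a => by simp)).unique
    (y₁ := ⟨L, hL⟩) (y₂ := ⟨fun t => L' t + (L 0 - L' 0), by fun_prop⟩)
    ⟨rfl, rfl⟩ ⟨by simp, by
      ext t
      have h0 : exp (L 0 - L' 0) = 1 := by
        rw [exp_sub, h 0, div_self (exp_ne_zero _)]
      simp [exp_add, h0, h t]⟩
  have h1 := congrArg (fun f : C(ℝ, ℂ) => f 1) hu
  simp only [ContinuousMap.coe_mk] at h1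
  rw [h1]; ring

open Classical in
/-- The increment from `0` to `1` of a continuous logarithm of `g`. -/
noncomputable def Var (g : ℝ → ℂ) : ℂ :=
  if h : ∃ L : ℝ → ℂ, Continuous L ∧ ∀ t, exp (L t) = g t then h.choose 1 - h.choose 0 else 0

theorem Var_eq (g L : ℝ → ℂ) (hL : Continuous L) (h : ∀ t, exp (L t) = g t) :
    Var g = L 1 - L 0 := by
  have hex : ∃ L : ℝ → ℂ, Continuous L ∧ ∀ t, exp (L t) = g t := ⟨L, hL, h⟩
  rw [Var, dif_pos hex]
  exact lift_unique _ _ hex.choose_spec.1 hL fun t => by rw [hex.choose_spec.2 t, h t]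

theorem exp_Var (g : ℝ → ℂ) (hg : Continuous g) (h0 : ∀ t, g t ≠ 0) :
    exp (Var g) = g 1 / g 0 := by
  obtain ⟨L, hL, h⟩ := exists_lift g hg h0
  rw [Var_eq g L hL h, exp_sub, h, h]

theorem Var_neg (g : ℝ → ℂ) (hg : Continuous g) (h0 : ∀ t, g t ≠ 0) :
    Var (fun t => - g t) = Var g := by
  obtain ⟨L, hL, h⟩ := exists_lift g hg h0
  rw [Var_eq g L hL h, Var_eq (fun t => - g t) (fun t => L t + Real.pi * I) (by fun_prop)
    (fun t => by rw [exp_add, h, exp_pi_mul_I]; ring)]
  ring

theorem Var_close (g h : ℝ → ℂ) (hg : Continuous g) (hh : Continuous h)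
    (hclose : ∀ t, ‖h t - g t‖ < ‖g t‖) :
    Var h = Var g + (log (h 1 / g 1) - log (h 0 / g 0)) := by
  have hg0 : ∀ t, g t ≠ 0 := fun t ht => by
    have := hclose t
    rw [ht, norm_zero] at this
    exact absurd this (not_lt.2 (norm_nonneg _))
  obtain ⟨L, hL, hLg⟩ := exists_lift g hg hg0
  have hslit : ∀ t, h t / g t ∈ slitPlane := by
    intro t
    have h1 : h t / g t = 1 + (h t - g t) / g t := by
      field_simp [hg0 t]
      ring
    rw [h1]
    apply mem_slitPlane_of_norm_lt_one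
    rw [norm_div, div_lt_one (norm_pos_iff.2 (hg0 t))]
    exact hclose t
  have hne : ∀ t, h t / g t ≠ 0 := fun t => slitPlane_ne_zero (hslit t)
  have hcont : Continuous fun t => log (h t / g t) :=
    (hh.div hg hg0).clog hslit
  rw [Var_eq h (fun t => L t + log (h t / g t)) (by fun_prop) (fun t => by
    rw [exp_add, hLg, exp_log (hne t), mul_div_cancel₀ _ (hg0 t)]), Var_eq g L hL hLg]
  ring

/-- The square relation: if the endpoints of the curves `e` and `f` stay away from the other curve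
and `e`, `f` can be pulled apart by arbitrarily small moves, then the total variation of the
logarithm of `e σ - f τ` along the boundary of the unit square vanishes. -/
theorem square_relation (e f : ℝ → ℂ) (he : Continuous e) (hf : Continuous f) (η : ℝ) (hη : 0 < η)
    (h1 : ∀ t, η ≤ ‖e t - f 0‖) (h2 : ∀ t, η ≤ ‖e t - f 1‖)
    (h3 : ∀ t, η ≤ ‖f t - e 0‖) (h4 : ∀ t, η ≤ ‖f t - e 1‖)
    (hsep : ∀ ε : ℝ, 0 < ε → ∃ α β : ℝ → ℂ, Continuous α ∧ Continuous β ∧
      (∀ t, ‖α t - e t‖ < ε) ∧ (∀ t, ‖β t - f t‖ < ε) ∧ ∀ s t, α s ≠ β t) :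
    Var (fun t => e t - f 0) - Var (fun t => e t - f 1) + Var (fun t => f t - e 1) -
      Var (fun t => f t - e 0) = 0 := by
  obtain ⟨α, β, hα, hβ, hαe, hβf, hdis⟩ := hsep (η / 4) (by linarith)
  have key : ∀ s t, ‖(α s - β t) - (e s - f t)‖ < η / 2 := by
    intro s t
    calc ‖(α s - β t) - (e s - f t)‖ = ‖(α s - e s) - (β t - f t)‖ := by congr 1; ring
      _ ≤ ‖α s - e s‖ + ‖β t - f t‖ := norm_sub_le _ _
      _ < η / 4 + η / 4 := add_lt_add (hαe s) (hβf t)
      _ = η / 2 := by ring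
  obtain ⟨K, hK, hKexp⟩ := exists_lift (fun p : ℝ × ℝ => α p.1 - β p.2) (by fun_prop)
    (fun p => sub_ne_zero.2 (hdis p.1 p.2))
  have v1 : Var (fun t => α t - β 0) = K (1, 0) - K (0, 0) :=
    Var_eq _ (fun t => K (t, 0)) (by fun_prop) (fun t => hKexp (t, 0))
  have v2 : Var (fun t => α 1 - β t) = K (1, 1) - K (1, 0) :=
    Var_eq _ (fun t => K (1, t)) (by fun_prop) (fun t => hKexp (1, t))
  have v3 : Var (fun t => α t - β 1) = K (1, 1) - K (0, 1) :=
    Var_eq _ (fun t => K (t, 1)) (by fun_prop) (fun t => hKexp (t, 1))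
  have v4 : Var (fun t => α 0 - β t) = K (0, 1) - K (0, 0) :=
    Var_eq _ (fun t => K (0, t)) (by fun_prop) (fun t => hKexp (0, t))
  have w1 := Var_close (fun t => e t - f 0) (fun t => α t - β 0) (by fun_prop) (by fun_prop)
    (fun t => by linarith [key t 0, h1 t])
  have w3 := Var_close (fun t => e t - f 1) (fun t => α t - β 1) (by fun_prop) (by fun_prop)
    (fun t => by linarith [key t 1, h2 t])
  have w2 := Var_close (fun t => e 1 - f t) (fun t => α 1 - β t) (by fun_prop) (by fun_prop)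
    (fun t => by linarith [key 1 t, h4 t, norm_sub_rev (f t) (e 1)])
  have w4 := Var_close (fun t => e 0 - f t) (fun t => α 0 - β t) (by fun_prop) (by fun_prop)
    (fun t => by linarith [key 0 t, h3 t, norm_sub_rev (f t) (e 0)])
  have n1 : Var (fun t => e 1 - f t) = Var (fun t => f t - e 1) := by
    rw [← Var_neg (fun t => f t - e 1) (by fun_prop)]
    · congr 1; ext t; ring
    · intro t ht
      have := h4 t
      rw [ht, norm_zero] at this
      linarith
  have n0 : Var (fun t => e 0 - f t) = Var (fun t => f t - e 0) := by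
    rw [← Var_neg (fun t => f t - e 0) (by fun_prop)]
    · congr 1; ext t; ring
    · intro t ht
      have := h3 t
      rw [ht, norm_zero] at this
      linarith
  rw [v1] at w1
  rw [v2] at w2
  rw [v3] at w3
  rw [v4] at w4
  rw [← n1, ← n0]
  linear_combination (-1 : ℂ) * w1 + w3 - w2 + w4

end Pool.Agent.Lib.Pb0fea6
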