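import Mathlib

/-!
The parity obstruction for the complete graph on five vertices, in terms of variations of the
logarithm, and its consequence for walks in a graph.
-/

set_option autoImplicit false

namespace Pool.Agent.Lib.Pb0fea6

open Complex

/-- indicator of `v < u` -/
def bb (u v : Fin 5) : ℤ := if v < u then 1 else 0

theorem five_points (z : Fin 5 → ℂ) (hz : ∀ u v, u ≠ v → z u ≠ z v)
    (D : Fin 5 → Fin 5 → Fin 5 → ℂ)
    (hb : ∀ i j k, i < j → k ≠ i → k ≠ j → exp (D i j k) = (z j - z k) / (z i - z k))
    (hc : ∀ i j k l, i < j → k < l → i ≠ k → i ≠ l → j ≠ k → j ≠ l →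
      D i j k - D i j l + D k l j - D k l i = 0) : False := by
  classical
  let lam : Fin 5 → Fin 5 → ℂ := fun u v => log (z (min u v) - z (max u v))
  let ell : Fin 5 → Fin 5 → ℂ := fun u v => lam u v + (bb u v : ℂ) * (Real.pi * I)
  have hlam : ∀ u v, lam u v = lam v u := fun u v => by
    simp only [lam, min_comm, max_comm]
  have hell : ∀ u v, u ≠ v → exp (ell u v) = z u - z v := by
    intro u v huv
    rcases lt_or_gt_of_ne huv with h | h
    · have h1 : bb u v = 0 := by simp [bb, h.le]
      simp only [ell, lam, h1, min_eq_left h.le, max_eq_right h.le, Int.cast_zero, zero_mul,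
        add_zero]
      exact exp_log (sub_ne_zero.2 (hz u v huv))
    · have h1 : bb u v = 1 := by simp [bb, h]
      simp only [ell, lam, h1, min_eq_right h.le, max_eq_left h.le, Int.cast_one, one_mul]
      rw [exp_add, exp_log (sub_ne_zero.2 (hz v u huv.symm)), exp_pi_mul_I]
      ring
  have hn : ∀ i j k : Fin 5, ∃ n : ℤ, i < j → k ≠ i → k ≠ j →
      D i j k = ell j k - ell i k + n * (2 * Real.pi * I) := by
    intro i j k
    by_cases h : i < j ∧ k ≠ i ∧ k ≠ j
    · obtain ⟨h1, h2, h3⟩ := h
      have h4 : exp (D i j k) = exp (ell j k - ell i k) := by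
        rw [hb i j k h1 h2 h3, exp_sub, hell j k h3.symm, hell i k h2.symm]
      obtain ⟨n, hn⟩ := exp_eq_exp_iff_exists_int.1 h4
      exact ⟨n, fun _ _ _ => hn⟩
    · exact ⟨0, fun h1 h2 h3 => absurd ⟨h1, h2, h3⟩ h⟩
  choose n hn using hn
  have rel : ∀ i j k l : Fin 5, i < j → k < l → i ≠ k → i ≠ l → j ≠ k → j ≠ l →
      2 * (n i j k - n i j l + n k l j - n k l i) +
        (bb j k - bb i k - bb j l + bb i l + bb l j - bb k j - bb l i + bb k i) = 0 := by
    intro i j k l h1 h2 h3 h4 h5 h6
    have h := hc i j k l h1 h2 h3 h4 h5 h6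
    rw [hn i j k h1 h3.symm h5.symm, hn i j l h1 h4.symm h6.symm, hn k l j h2 h5 h6,
      hn k l i h2 h3 h4] at h
    simp only [ell] at h
    rw [hlam l j, hlam k j, hlam l i, hlam k i] at h
    have h7 : ((2 * (n i j k - n i j l + n k l j - n k l i) +
        (bb j k - bb i k - bb j l + bb i l + bb l j - bb k j - bb l i + bb k i) : ℤ) : ℂ) *
        (Real.pi * I) = 0 := by
      push_cast
      linear_combination h
    have h8 : (Real.pi * I : ℂ) ≠ 0 := by
      simp [Real.pi_ne_zero]
    have h9 := (mul_eq_zero.1 h7).resolve_right h8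
    exact_mod_cast h9
  have r1 := rel 0 1 2 3 (by decide) (by decide) (by decide) (by decide) (by decide) (by decide)
  have r2 := rel 0 2 1 3 (by decide) (by decide) (by decide) (by decide) (by decide) (by decide)
  have r3 := rel 0 3 1 2 (by decide) (by decide) (by decide) (by decide) (by decide) (by decide)
  have r4 := rel 0 1 2 4 (by decide) (by decide) (by decide) (by decide) (by decide) (by decide)
  have r5 := rel 0 2 1 4 (by decide) (by decide) (by decide) (by decide) (by decide) (by decide)
  have r6 := rel 0 4 1 2 (by decide) (by decide) (by decide) (by decide) (by decide) (by decide)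
  have r7 := rel 0 1 3 4 (by decide) (by decide) (by decide) (by decide) (by decide) (by decide)
  have r8 := rel 0 3 1 4 (by decide) (by decide) (by decide) (by decide) (by decide) (by decide)
  have r9 := rel 0 4 1 3 (by decide) (by decide) (by decide) (by decide) (by decide) (by decide)
  have r10 := rel 0 2 3 4 (by decide) (by decide) (by decide) (by decide) (by decide) (by decide)
  have r11 := rel 0 3 2 4 (by decide) (by decide) (by decide) (by decide) (by decide) (by decide)
  have r12 := rel 0 4 2 3 (by decide) (by decide) (by decide) (by decide) (by decide) (by decide)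
  have r13 := rel 1 2 3 4 (by decide) (by decide) (by decide) (by decide) (by decide) (by decide)
  have r14 := rel 1 3 2 4 (by decide) (by decide) (by decide) (by decide) (by decide) (by decide)
  have r15 := rel 1 4 2 3 (by decide) (by decide) (by decide) (by decide) (by decide) (by decide)
  simp (decide := true) only [bb, if_true, if_false] at r1 r2 r3 r4 r5 r6 r7 r8 r9 r10 r11 r12 r13 r14 r15
  omega

end Pool.Agent.Lib.Pb0fea6
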