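import Mathlib
import Pool.Agent.Lib.Pb0fea6.Parity

/-!
A graph with a drawing in which independent edges satisfy the square relation has no `K₅` minor.
-/

set_option autoImplicit false

namespace Pool.Agent.Lib.Pb0fea6

open Complex

variable {V : Type*}

/-- `B` is nonempty and connected in `G`. -/
def Conn (G : SimpleGraph V) (B : Set V) : Prop :=
  B.Nonempty ∧ ∀ x ∈ B, ∀ y ∈ B, ∃ p : G.Walk x y, ∀ v ∈ p.support, v ∈ B

/-- `G` has a complete minor on `t` vertices. -/
def HasMinor (G : SimpleGraph V) (t : ℕ) : Prop :=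
  ∃ B : Fin t → Set V, (∀ i, Conn G (B i)) ∧ (∀ i j, i ≠ j → Disjoint (B i) (B j)) ∧
    ∀ i j, i ≠ j → ∃ x ∈ B i, ∃ y ∈ B j, G.Adj x y

/-- the sum of `Δ` over the steps of a walk -/
def wsum {G : SimpleGraph V} (Δ : V → V → V → ℂ) : ∀ {u w : V}, G.Walk u w → V → ℂ
  | _, _, .nil, _ => 0
  | u, _, .cons (v := u') _ p, v => Δ u u' v + wsum Δ p v

theorem wsum_nil {G : SimpleGraph V} (Δ : V → V → V → ℂ) (u v : V) :
    wsum Δ (SimpleGraph.Walk.nil : G.Walk u u) v = 0 := rfl

theorem wsum_cons {G : SimpleGraph V} (Δ : V → V → V → ℂ) {u u' w : V} (h : G.Adj u u')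
    (p : G.Walk u' w) (v : V) :
    wsum Δ (SimpleGraph.Walk.cons h p) v = Δ u u' v + wsum Δ p v := rfl

theorem no_K5 (G : SimpleGraph V) (z : V → ℂ) (Δ : V → V → V → ℂ)
    (hz : ∀ u v, u ≠ v → z u ≠ z v)
    (hexp : ∀ u w v, G.Adj u w → v ≠ u → v ≠ w → exp (Δ u w v) = (z w - z v) / (z u - z v))
    (hsq : ∀ u w x y, G.Adj u w → G.Adj x y → u ≠ x → u ≠ y → w ≠ x → w ≠ y →
      Δ u w x - Δ u w y + Δ x y w - Δ x y u = 0) : ¬ HasMinor G 5 := by
  rintro ⟨B, hconn, hdisj, hadj⟩
  -- walks
  have wexp : ∀ {u w : V} (p : G.Walk u w) (v : V), v ∉ p.support →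
      exp (wsum Δ p v) = (z w - z v) / (z u - z v) := by
    intro u w p v
    induction p with
    | nil =>
      intro hv
      rename_i u
      have : v ≠ u := by simpa using hv
      rw [wsum_nil, exp_zero, div_self (sub_ne_zero.2 (hz _ _ this.symm))]
    | cons h p ih =>
      intro hv
      rename_i a b c
      rw [SimpleGraph.Walk.support_cons, List.mem_cons, not_or] at hv
      have hvb : v ≠ b := fun h' => hv.2 (h' ▸ p.start_mem_support)
      rw [wsum_cons, exp_add, ih hv.2, hexp _ _ _ h hv.1 hvb]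
      have h1 : z b - z v ≠ 0 := sub_ne_zero.2 (hz _ _ hvb.symm)
      have h2 : z a - z v ≠ 0 := sub_ne_zero.2 (hz _ _ (Ne.symm hv.1))
      field_simp
  have wsq1 : ∀ {x y : V} (q : G.Walk x y) (u w : V), G.Adj u w → u ∉ q.support →
      w ∉ q.support → Δ u w x - Δ u w y + wsum Δ q w - wsum Δ q u = 0 := by
    intro x y q u w huw
    induction q with
    | nil =>
      intro _ _
      rw [wsum_nil, wsum_nil]; ring
    | cons h q ih =>
      intro hu hw
      rename_i a b c
      rw [SimpleGraph.Walk.support_cons, List.mem_cons, not_or] at hu hw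
      have hub : u ≠ b := fun h' => hu.2 (h' ▸ q.start_mem_support)
      have hwb : w ≠ b := fun h' => hw.2 (h' ▸ q.start_mem_support)
      rw [wsum_cons, wsum_cons]
      linear_combination ih hu.2 hw.2 + hsq u w a b huw h hu.1 hub hw.1 hwb
  have wsq : ∀ {u w : V} (p : G.Walk u w) {x y : V} (q : G.Walk x y),
      (∀ v ∈ p.support, v ∉ q.support) →
      wsum Δ p x - wsum Δ p y + wsum Δ q w - wsum Δ q u = 0 := by
    intro u w p x y q
    induction p with
    | nil =>
      intro _
      rw [wsum_nil, wsum_nil]; ring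
    | cons h p ih =>
      intro hd
      rename_i a b c
      have h1 : a ∉ q.support := hd a (by simp)
      have h2 : b ∉ q.support := hd b (by simp)
      rw [wsum_cons, wsum_cons]
      linear_combination ih (fun v hv => hd v (by simp [hv])) + wsq1 q a b h h1 h2
  choose r hr using fun i => (hconn i).1
  have hpath : ∀ i j : Fin 5, i ≠ j → ∃ p : G.Walk (r i) (r j),
      ∀ v ∈ p.support, v ∈ B i ∨ v ∈ B j := by
    intro i j hij
    obtain ⟨x, hx, y, hy, hxy⟩ := hadj i j hij
    obtain ⟨p, hp⟩ := (hconn i).2 (r i) (hr i) x hx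
    obtain ⟨q, hq⟩ := (hconn j).2 y hy (r j) (hr j)
    refine ⟨p.append (SimpleGraph.Walk.cons hxy q), fun v hv => ?_⟩
    rw [SimpleGraph.Walk.mem_support_append_iff, SimpleGraph.Walk.support_cons,
      List.mem_cons] at hv
    rcases hv with hv | hv | hv
    · exact Or.inl (hp v hv)
    · exact Or.inl (hv ▸ hx)
    · exact Or.inr (hq v hv)
  choose P hP using hpath
  have hnot : ∀ i j v, v ∈ B i → i ≠ j → v ∉ B j := fun i j v hi hij hj =>
    (Set.disjoint_left.1 (hdisj i j hij)) hi hj
  refine five_points (fun i => z (r i)) ?_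
    (fun i j k => if h : i ≠ j then wsum Δ (P i j h) (r k) else 0) ?_ ?_
  · intro u v huv
    exact hz _ _ fun h => hnot u v (r u) (hr u) huv (h ▸ hr v)
  · intro i j k hij hki hkj
    rw [dif_pos hij.ne]
    refine wexp _ _ fun hv => ?_
    rcases hP i j hij.ne _ hv with h | h
    · exact hnot k i _ (hr k) hki h
    · exact hnot k j _ (hr k) hkj h
  · intro i j k l hij hkl hik hil hjk hjl
    simp only [dif_pos hij.ne, dif_pos hkl.ne]
    refine wsq _ _ fun v hv hv' => ?_
    rcases hP i j hij.ne _ hv with h | h <;> rcases hP k l hkl.ne _ hv' with h' | h'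
    · exact hnot i k v h hik h'
    · exact hnot i l v h hil h'
    · exact hnot j k v h hjk h'
    · exact hnot j l v h hjl h'

end Pool.Agent.Lib.Pb0fea6
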