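import Mathlib
import Pool.Agent.Lib.Pb0fea6.Drawing

/-!
A finite graph with at least `2 ^ t * |V|` ordered pairs of adjacent vertices has a complete minor
on `t + 1` vertices.
-/

set_option autoImplicit false

namespace Pool.Agent.Lib.Pb0fea6

open Classical in
/-- number of ordered pairs of adjacent vertices -/
noncomputable def N {V : Type} [Fintype V] (G : SimpleGraph V) : ℕ :=
  (Finset.univ.filter fun p : V × V => G.Adj p.1 p.2).card

open Classical in
theorem N_eq_sum {V : Type} [Fintype V] (G : SimpleGraph V) :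
    N G = ∑ u, (Finset.univ.filter fun v => G.Adj u v).card := by
  simp only [N, Finset.card_filter]
  rw [← Finset.univ_product_univ, Finset.sum_product]

open Classical in
/-- common neighbours -/
noncomputable def common {V : Type} [Fintype V] (G : SimpleGraph V) (x y : V) : Finset V :=
  Finset.univ.filter fun v => G.Adj x v ∧ G.Adj y v

/-- the contraction of `y` into `x` -/
def contract {V : Type} (G : SimpleGraph V) (x y : V) : SimpleGraph {v : V // v ≠ y} where
  Adj u v := u ≠ v ∧ (G.Adj u.1 v.1 ∨ (u.1 = x ∧ G.Adj y v.1) ∨ (v.1 = x ∧ G.Adj u.1 y))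
  symm := ⟨by
    rintro u v ⟨h1, h2 | h2 | h2⟩
    · exact ⟨h1.symm, Or.inl h2.symm⟩
    · exact ⟨h1.symm, Or.inr (Or.inr ⟨h2.1, h2.2.symm⟩)⟩
    · exact ⟨h1.symm, Or.inr (Or.inl ⟨h2.1, h2.2.symm⟩)⟩⟩
  loopless := ⟨fun _ h => h.1 rfl⟩

theorem hasMinor_contract {V : Type} (G : SimpleGraph V) (x y : V) (hxy : G.Adj x y) (t : ℕ)
    (h : HasMinor (contract G x y) t) : HasMinor G t := by
  obtain ⟨B', hconn, hdisj, hadj⟩ := h
  have hxy' : x ≠ y := hxy.ne
  let x' : {v : V // v ≠ y} := ⟨x, hxy'⟩
  let B : Fin t → Set V := fun i => {v | (∃ h : v ≠ y, (⟨v, h⟩ : {v : V // v ≠ y}) ∈ B' i) ∨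
    (v = y ∧ x' ∈ B' i)}
  have hin : ∀ (i : Fin t) (v : {v : V // v ≠ y}), v ∈ B' i → v.1 ∈ B i :=
    fun i v hv => Or.inl ⟨v.2, hv⟩
  have hy : ∀ i, x' ∈ B' i → y ∈ B i := fun i hi => Or.inr ⟨rfl, hi⟩
  have lift : ∀ (i : Fin t) {a b : {v : V // v ≠ y}} (p : (contract G x y).Walk a b),
      (∀ v ∈ p.support, v ∈ B' i) → ∃ q : G.Walk a.1 b.1, ∀ v ∈ q.support, v ∈ B i := by
    intro i a b p
    induction p with
    | nil =>
      intro h
      refine ⟨SimpleGraph.Walk.nil, fun v hv => ?_⟩
      rw [SimpleGraph.Walk.support_nil, List.mem_singleton] at hv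
      rw [hv]
      exact hin i _ (h _ (by simp))
    | cons h p ih =>
      intro hs
      rename_i a b c
      obtain ⟨q, hq⟩ := ih fun v hv => hs v (by simp [hv])
      have ha : a ∈ B' i := hs a (by simp)
      have hb : b ∈ B' i := hs b (by simp)
      rcases h.2 with h2 | ⟨h2, h3⟩ | ⟨h2, h3⟩
      · refine ⟨SimpleGraph.Walk.cons h2 q, fun v hv => ?_⟩
        rw [SimpleGraph.Walk.support_cons, List.mem_cons] at hv
        rcases hv with rfl | hv
        · exact hin i a ha
        · exact hq v hv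
      · have hax : a = x' := Subtype.ext h2
        have hay : G.Adj a.1 y := by rw [h2]; exact hxy
        refine ⟨SimpleGraph.Walk.cons hay (SimpleGraph.Walk.cons h3 q), fun v hv => ?_⟩
        rw [SimpleGraph.Walk.support_cons, SimpleGraph.Walk.support_cons, List.mem_cons,
          List.mem_cons] at hv
        rcases hv with rfl | rfl | hv
        · exact hin i a ha
        · exact hy i (hax ▸ ha)
        · exact hq v hv
      · have hbx : b = x' := Subtype.ext h2
        have hyb : G.Adj y b.1 := by rw [h2]; exact hxy.symm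
        refine ⟨SimpleGraph.Walk.cons h3 (SimpleGraph.Walk.cons hyb q), fun v hv => ?_⟩
        rw [SimpleGraph.Walk.support_cons, SimpleGraph.Walk.support_cons, List.mem_cons,
          List.mem_cons] at hv
        rcases hv with rfl | rfl | hv
        · exact hin i a ha
        · exact hy i (hbx ▸ hb)
        · exact hq v hv
  refine ⟨B, fun i => ⟨?_, ?_⟩, ?_, ?_⟩
  · obtain ⟨v, hv⟩ := (hconn i).1
    exact ⟨v.1, hin i v hv⟩
  · -- every vertex of `B i` is joined inside `B i` to a vertex of `B' i`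
    have hto : ∀ u ∈ B i, ∃ u' ∈ B' i, ∃ p : G.Walk u u'.1, ∀ v ∈ p.support, v ∈ B i := by
      rintro u (⟨h, hu⟩ | ⟨rfl, hx⟩)
      · refine ⟨⟨u, h⟩, hu, SimpleGraph.Walk.nil, fun v hv => ?_⟩
        rw [SimpleGraph.Walk.support_nil, List.mem_singleton] at hv
        rw [hv]
        exact Or.inl ⟨h, hu⟩
      · refine ⟨x', hx, SimpleGraph.Walk.cons hxy.symm SimpleGraph.Walk.nil, fun v hv => ?_⟩
        rw [SimpleGraph.Walk.support_cons, SimpleGraph.Walk.support_nil, List.mem_cons,
          List.mem_singleton] at hv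
        rcases hv with rfl | rfl
        · exact Or.inr ⟨rfl, hx⟩
        · exact hin i x' hx
    intro u hu w hw
    obtain ⟨u', hu', p, hp⟩ := hto u hu
    obtain ⟨w', hw', q, hq⟩ := hto w hw
    obtain ⟨m, hm⟩ := (hconn i).2 u' hu' w' hw'
    obtain ⟨m', hm'⟩ := lift i m hm
    refine ⟨(p.append m').append q.reverse, fun v hv => ?_⟩
    rw [SimpleGraph.Walk.mem_support_append_iff, SimpleGraph.Walk.mem_support_append_iff,
      SimpleGraph.Walk.support_reverse, List.mem_reverse] at hv
    rcases hv with (hv | hv) | hv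
    · exact hp v hv
    · exact hm' v hv
    · exact hq v hv
  · intro i j hij
    rw [Set.disjoint_left]
    rintro v (⟨h1, h2⟩ | ⟨h1, h2⟩) (⟨h3, h4⟩ | ⟨h3, h4⟩)
    · exact Set.disjoint_left.1 (hdisj i j hij) h2 h4
    · exact h1 h3
    · exact h3 h1
    · exact Set.disjoint_left.1 (hdisj i j hij) h2 h4
  · intro i j hij
    obtain ⟨a, ha, b, hb, hab⟩ := hadj i j hij
    rcases hab.2 with h2 | ⟨h2, h3⟩ | ⟨h2, h3⟩
    · exact ⟨a.1, hin i a ha, b.1, hin j b hb, h2⟩
    · have hax : a = x' := Subtype.ext h2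
      exact ⟨y, hy i (hax ▸ ha), b.1, hin j b hb, h3⟩
    · have hbx : b = x' := Subtype.ext h2
      exact ⟨a.1, hin i a ha, y, hy j (hbx ▸ hb), h3⟩

open Classical in
theorem N_contract {V : Type} [Fintype V] (G : SimpleGraph V) (x y : V) (hxy : G.Adj x y) :
    N G ≤ N (contract G x y) + (2 + 2 * (common G x y).card) := by
  have hxy' : x ≠ y := hxy.ne
  let ρ : V → {v : V // v ≠ y} := fun v => if h : v = y then ⟨x, hxy'⟩ else ⟨v, h⟩
  have ρy : (ρ y).1 = x := by simp [ρ]
  have ρn : ∀ v, v ≠ y → (ρ v).1 = v := fun v hv => by simp [ρ, hv]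
  set bad : Finset (V × V) := {(x, y), (y, x)} ∪ ((common G x y).image (fun v => (y, v)) ∪
    (common G x y).image (fun v => (v, y))) with hbad
  have hbadcard : bad.card ≤ 2 + 2 * (common G x y).card := by
    refine (Finset.card_union_le _ _).trans ?_
    refine Nat.add_le_add (Finset.card_le_two) ?_
    refine (Finset.card_union_le _ _).trans ?_
    have h1 := Finset.card_image_le (s := common G x y) (f := fun v => (y, v))
    have h2 := Finset.card_image_le (s := common G x y) (f := fun v => (v, y))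
    omega
  have hcomm : ∀ v, v ∈ common G x y ↔ G.Adj x v ∧ G.Adj y v := by
    intro v; simp [common]
  have hmem : ∀ a b : V, (a, b) ∈ bad ↔ (a = x ∧ b = y) ∨ (a = y ∧ b = x) ∨
      (a = y ∧ G.Adj x b ∧ G.Adj y b) ∨ (b = y ∧ G.Adj x a ∧ G.Adj y a) := by
    intro a b
    simp only [hbad, Finset.mem_union, Finset.mem_insert, Finset.mem_singleton, Finset.mem_image,
      Prod.mk.injEq, hcomm]
    constructor
    · rintro ((⟨h1, h2⟩ | ⟨h1, h2⟩) | (⟨v, hv, h1, h2⟩ | ⟨v, hv, h1, h2⟩))
      · exact Or.inl ⟨h1, h2⟩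
      · exact Or.inr (Or.inl ⟨h1, h2⟩)
      · subst h2; exact Or.inr (Or.inr (Or.inl ⟨h1.symm, hv⟩))
      · subst h1; exact Or.inr (Or.inr (Or.inr ⟨h2.symm, hv⟩))
    · rintro (⟨h1, h2⟩ | ⟨h1, h2⟩ | ⟨h1, h2⟩ | ⟨h1, h2⟩)
      · exact Or.inl (Or.inl ⟨h1, h2⟩)
      · exact Or.inl (Or.inr ⟨h1, h2⟩)
      · exact Or.inr (Or.inl ⟨b, h2, h1.symm, rfl⟩)
      · exact Or.inr (Or.inr ⟨a, h2, rfl, h1.symm⟩)
  have hle : (Finset.univ.filter fun p : V × V => G.Adj p.1 p.2).card ≤
      ((Finset.univ.filter fun p : V × V => G.Adj p.1 p.2) \ bad).card + bad.card := by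
    rw [← Finset.card_union_of_disjoint Finset.sdiff_disjoint]
    exact Finset.card_le_card (by
      intro p hp
      by_cases h : p ∈ bad
      · exact Finset.mem_union_right _ h
      · exact Finset.mem_union_left _ (Finset.mem_sdiff.2 ⟨hp, h⟩))
  have hinj : ((Finset.univ.filter fun p : V × V => G.Adj p.1 p.2) \ bad).card ≤
      N (contract G x y) := by
    refine Finset.card_le_card_of_injOn (fun p => (ρ p.1, ρ p.2)) ?_ ?_
    · rintro ⟨a, b⟩ hp
      rw [Finset.mem_coe, Finset.mem_sdiff, Finset.mem_filter, hmem] at hp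
      obtain ⟨⟨-, hab⟩, hbad'⟩ := hp
      have hab' : G.Adj a b := hab
      push Not at hbad'
      obtain ⟨n1, n2, n3, n4⟩ := hbad'
      rw [Finset.mem_coe, Finset.mem_filter]
      refine ⟨Finset.mem_univ _, ?_, ?_⟩
      · intro h
        have h' : (ρ a).1 = (ρ b).1 := congrArg Subtype.val h
        by_cases ha : a = y
        · have hb : b ≠ y := fun hb => hab'.ne (ha.trans hb.symm)
          rw [ha, ρy, ρn b hb] at h'
          exact n2 ha h'.symm
        · by_cases hb : b = y
          · rw [hb, ρy, ρn a ha] at h'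
            exact n1 h' hb
          · rw [ρn a ha, ρn b hb] at h'
            exact hab'.ne h'
      · by_cases ha : a = y
        · have hb : b ≠ y := fun hb => hab'.ne (ha.trans hb.symm)
          subst ha
          exact Or.inr (Or.inl ⟨ρy, by rw [ρn b hb]; exact hab'⟩)
        · by_cases hb : b = y
          · subst hb
            exact Or.inr (Or.inr ⟨ρy, by rw [ρn a ha]; exact hab'⟩)
          · refine Or.inl ?_
            rw [ρn a ha, ρn b hb]
            exact hab'
    · rintro ⟨a, b⟩ hp ⟨a', b'⟩ hp' heq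
      rw [Finset.mem_coe, Finset.mem_sdiff, Finset.mem_filter, hmem] at hp hp'
      obtain ⟨⟨-, hab⟩, hbad1⟩ := hp
      obtain ⟨⟨-, hab'⟩, hbad2⟩ := hp'
      have hab : G.Adj a b := hab
      have hab' : G.Adj a' b' := hab'
      push Not at hbad1 hbad2
      obtain ⟨n1, n2, n3, n4⟩ := hbad1
      obtain ⟨m1, m2, m3, m4⟩ := hbad2
      have e1 : (ρ a).1 = (ρ a').1 := congrArg (fun q => q.1.1) heq
      have e2 : (ρ b).1 = (ρ b').1 := congrArg (fun q => q.2.1) heq
      -- `ρ u = ρ u'` means `u = u'` or `{u, u'} = {x, y}`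
      have hρ : ∀ u u', (ρ u).1 = (ρ u').1 → u = u' ∨ (u = x ∧ u' = y) ∨ (u = y ∧ u' = x) := by
        intro u u' h
        by_cases hu : u = y <;> by_cases hu' : u' = y
        · exact Or.inl (hu.trans hu'.symm)
        · rw [hu, ρy, ρn u' hu'] at h
          exact Or.inr (Or.inr ⟨hu, h.symm⟩)
        · rw [hu', ρy, ρn u hu] at h
          exact Or.inr (Or.inl ⟨h, hu'⟩)
        · rw [ρn u hu, ρn u' hu'] at h
          exact Or.inl h
      rcases hρ a a' e1 with h1 | ⟨h1, h2⟩ | ⟨h1, h2⟩ <;>
      rcases hρ b b' e2 with h3 | ⟨h3, h4⟩ | ⟨h3, h4⟩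
      · rw [h1, h3]
      · rw [h1, h3] at hab
        rw [h4] at hab'
        exact absurd hab'.symm (m4 h4 hab.symm)
      · rw [h3] at hab
        rw [← h1, h4] at hab'
        exact absurd hab.symm (n4 h3 hab'.symm)
      · rw [h1, h3] at hab
        rw [h2] at hab'
        exact absurd hab' (m3 h2 hab)
      · rw [h1, h3] at hab
        exact absurd rfl hab.ne
      · exact absurd h3 (n1 h1)
      · rw [h1] at hab
        rw [h2, ← h3] at hab'
        exact absurd hab (n3 h1 hab')
      · exact absurd h3 (n2 h1)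
      · rw [h1, h3] at hab
        exact absurd rfl hab.ne
  unfold N at *
  omega


open Classical in
theorem hasMinor_of_N (t : ℕ) : ∀ (V : Type) [Fintype V] [Nonempty V] (G : SimpleGraph V),
    2 ^ t * Fintype.card V ≤ N G → HasMinor G (t + 1) := by
  induction t with
  | zero =>
    intro V _ _ G _
    obtain ⟨v⟩ := ‹Nonempty V›
    refine ⟨fun _ => {v}, fun _ => ⟨⟨v, rfl⟩, ?_⟩, ?_, ?_⟩
    · rintro x rfl y rfl
      exact ⟨SimpleGraph.Walk.nil, fun u hu => by simpa using hu⟩
    · intro i j hij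
      exact absurd (Subsingleton.elim (α := Fin 1) i j) hij
    · intro i j hij
      exact absurd (Subsingleton.elim (α := Fin 1) i j) hij
  | succ t iht =>
    suffices h : ∀ (m : ℕ) (V : Type) [Fintype V] [Nonempty V] (G : SimpleGraph V),
        Fintype.card V = m → 2 ^ (t + 1) * Fintype.card V ≤ N G → HasMinor G (t + 1 + 1) from
      fun V _ _ G hG => h _ V G rfl hG
    intro m
    induction m using Nat.strong_induction_on with
    | _ m ihm =>
    intro V _ _ G hm hG
    have hpos : 0 < Fintype.card V := Fintype.card_pos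
    have hedge : ∃ x y, G.Adj x y := by
      have h1 : 0 < N G := lt_of_lt_of_le (by positivity) hG
      obtain ⟨p, hp⟩ := Finset.card_pos.1 h1
      exact ⟨p.1, p.2, (Finset.mem_filter.1 hp).2⟩
    by_cases hall : ∀ x y, G.Adj x y → 2 ^ t ≤ (common G x y).card
    · -- recurse into a neighbourhood
      obtain ⟨x, y₀, hxy₀⟩ := hedge
      let W := {v : V // G.Adj x v}
      let G' : SimpleGraph W := G.comap Subtype.val
      have : Nonempty W := ⟨⟨y₀, hxy₀⟩⟩
      have hN : 2 ^ t * Fintype.card W ≤ N G' := by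
        rw [N_eq_sum, mul_comm, ← smul_eq_mul]
        refine Finset.card_nsmul_le_sum _ _ _ fun v _ => ?_
        refine (hall x v.1 v.2).trans ?_
        have : (common G x v.1) =
            (Finset.univ.filter fun w : W => G'.Adj v w).map ⟨Subtype.val, Subtype.val_injective⟩ := by
          ext w
          simp only [common, Finset.mem_filter, Finset.mem_univ, true_and, Finset.mem_map,
            Function.Embedding.coeFn_mk]
          constructor
          · rintro ⟨h1, h2⟩
            exact ⟨⟨w, h1⟩, h2, rfl⟩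
          · rintro ⟨w', h1, rfl⟩
            exact ⟨w'.2, h1⟩
        rw [this, Finset.card_map]
        apply le_of_eq
        congr
      obtain ⟨B', hconn, hdisj, hadj⟩ := iht W G' hN
      let φ : G' →g G := ⟨Subtype.val, fun h => h⟩
      refine ⟨Fin.cons {x} fun i => Subtype.val '' B' i, ?_, ?_, ?_⟩
      · intro i
        refine Fin.cases ?_ (fun i => ?_) i
        · rw [Fin.cons_zero]
          refine ⟨⟨x, rfl⟩, ?_⟩
          rintro a rfl b rfl
          exact ⟨SimpleGraph.Walk.nil, fun u hu => by simpa using hu⟩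
        · rw [Fin.cons_succ]
          refine ⟨(hconn i).1.image _, ?_⟩
          rintro _ ⟨a, ha, rfl⟩ _ ⟨b, hb, rfl⟩
          obtain ⟨p, hp⟩ := (hconn i).2 a ha b hb
          refine ⟨p.map φ, fun v hv => ?_⟩
          rw [SimpleGraph.Walk.support_map, List.mem_map] at hv
          obtain ⟨w, hw, rfl⟩ := hv
          exact ⟨w, hp w hw, rfl⟩
      · intro i j
        refine Fin.cases ?_ (fun i => ?_) i <;> refine Fin.cases ?_ (fun j => ?_) j
        · intro h; exact absurd rfl h
        · intro _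
          rw [Fin.cons_zero, Fin.cons_succ, Set.disjoint_left]
          rintro a rfl ⟨b, _, hb⟩
          exact b.2.ne hb.symm
        · intro _
          rw [Fin.cons_zero, Fin.cons_succ, Set.disjoint_left]
          rintro _ ⟨b, _, hb⟩ rfl
          exact b.2.ne hb.symm
        · intro h
          rw [Fin.cons_succ, Fin.cons_succ, Set.disjoint_left]
          rintro _ ⟨a, ha, rfl⟩ ⟨b, hb, hab⟩
          have : b = a := Subtype.ext hab
          subst this
          exact Set.disjoint_left.1 (hdisj i j fun h' => h (by rw [h'])) ha hb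
      · intro i j
        refine Fin.cases ?_ (fun i => ?_) i <;> refine Fin.cases ?_ (fun j => ?_) j
        · intro h; exact absurd rfl h
        · intro _
          rw [Fin.cons_zero, Fin.cons_succ]
          obtain ⟨w, hw⟩ := (hconn j).1
          exact ⟨x, rfl, w.1, ⟨w, hw, rfl⟩, w.2⟩
        · intro _
          rw [Fin.cons_zero, Fin.cons_succ]
          obtain ⟨w, hw⟩ := (hconn i).1
          exact ⟨w.1, ⟨w, hw, rfl⟩, x, rfl, w.2.symm⟩
        · intro h
          rw [Fin.cons_succ, Fin.cons_succ]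
          obtain ⟨a, ha, b, hb, hab⟩ := hadj i j fun h' => h (by rw [h'])
          exact ⟨a.1, ⟨a, ha, rfl⟩, b.1, ⟨b, hb, rfl⟩, hab⟩
    · -- contract an edge
      push Not at hall
      obtain ⟨x, y, hxy, hlt⟩ := hall
      have hcard : Fintype.card {v : V // v ≠ y} = Fintype.card V - 1 := by
        rw [Fintype.card_subtype_compl, Fintype.card_subtype_eq]
      have : Nonempty {v : V // v ≠ y} := ⟨⟨x, hxy.ne⟩⟩
      refine hasMinor_contract G x y hxy _ (ihm (Fintype.card V - 1) (by omega) _ _ hcard ?_)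
      have h1 := N_contract G x y hxy
      rw [hcard]
      have h2 : 2 ^ (t + 1) * (Fintype.card V - 1) = 2 ^ (t + 1) * Fintype.card V - 2 ^ (t + 1) := by
        rw [Nat.mul_sub, mul_one]
      rw [h2]
      have h3 : 2 ^ (t + 1) = 2 * 2 ^ t := by ring
      omega

end Pool.Agent.Lib.Pb0fea6
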