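import Mathlib
import Pool.Agent.Lib.Pb0fea6.Angle

/-!
Pieces of curves parametrised by the unit interval.
-/

set_option autoImplicit false

namespace Pool.Agent.Lib.Pb0fea6

open Complex

/-- the unit interval -/
abbrev II := unitInterval

/-- affine reparametrisation of the part of the unit interval between `s` and `t`, clamped -/
noncomputable def seg (s t : II) (x : ℝ) : II :=
  Set.projIcc (0 : ℝ) 1 zero_le_one
    ((1 - (Set.projIcc (0 : ℝ) 1 zero_le_one x : ℝ)) * s + (Set.projIcc (0 : ℝ) 1 zero_le_one x : ℝ) * t)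

theorem seg_continuous (s t : II) : Continuous (seg s t) := by
  unfold seg
  exact continuous_projIcc.comp (by
    have h : Continuous fun x : ℝ => (Set.projIcc (0 : ℝ) 1 zero_le_one x : ℝ) :=
      continuous_subtype_val.comp continuous_projIcc
    fun_prop)

theorem seg_val (s t : II) (x : ℝ) : ((seg s t x : II) : ℝ) =
    (1 - (Set.projIcc (0 : ℝ) 1 zero_le_one x : ℝ)) * s +
      (Set.projIcc (0 : ℝ) 1 zero_le_one x : ℝ) * t := by
  unfold seg
  have h0 : (0 : ℝ) ≤ (Set.projIcc (0 : ℝ) 1 zero_le_one x : ℝ) := (Set.projIcc _ _ _ x).2.1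
  have h1 : (Set.projIcc (0 : ℝ) 1 zero_le_one x : ℝ) ≤ 1 := (Set.projIcc _ _ _ x).2.2
  have hs0 : (0 : ℝ) ≤ (s : ℝ) := s.2.1
  have hs1 : (s : ℝ) ≤ 1 := s.2.2
  have ht0 : (0 : ℝ) ≤ (t : ℝ) := t.2.1
  have ht1 : (t : ℝ) ≤ 1 := t.2.2
  rw [Set.projIcc_of_mem]
  constructor
  · positivity [sub_nonneg.2 h1]
  · nlinarith

theorem seg_zero (s t : II) : seg s t 0 = s := by
  apply Subtype.ext
  rw [seg_val, Set.projIcc_left]
  simp

theorem seg_one (s t : II) : seg s t 1 = t := by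
  apply Subtype.ext
  rw [seg_val, Set.projIcc_right]
  simp

theorem seg_between (s t : II) (x : ℝ) :
    (s ≤ seg s t x ∧ seg s t x ≤ t) ∨ (t ≤ seg s t x ∧ seg s t x ≤ s) := by
  have h0 : (0 : ℝ) ≤ (Set.projIcc (0 : ℝ) 1 zero_le_one x : ℝ) := (Set.projIcc _ _ _ x).2.1
  have h1 : (Set.projIcc (0 : ℝ) 1 zero_le_one x : ℝ) ≤ 1 := (Set.projIcc _ _ _ x).2.2
  have hv := seg_val s t x
  rcases le_total s t with h | h
  · left
    have h' : (s : ℝ) ≤ t := h
    constructor <;> rw [← Subtype.coe_le_coe, hv] <;> nlinarith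
  · right
    have h' : (t : ℝ) ≤ s := h
    constructor <;> rw [← Subtype.coe_le_coe, hv] <;> nlinarith

/-- variation of the logarithm of `g - z` along the part of `g` from `s` to `t` -/
noncomputable def pvar (g : II → ℂ) (s t : II) (z : ℂ) : ℂ := Var fun x => g (seg s t x) - z

theorem exp_pvar (g : II → ℂ) (hg : Continuous g) (s t : II) (z : ℂ)
    (hz : ∀ x, g (seg s t x) ≠ z) : exp (pvar g s t z) = (g t - z) / (g s - z) := by
  have h := exp_Var (fun x => g (seg s t x) - z)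
    ((hg.comp (seg_continuous s t)).sub continuous_const) (fun x => sub_ne_zero.2 (hz x))
  rw [pvar, h, seg_one, seg_zero]

theorem exists_dist (g : II → ℂ) (hg : Continuous g) (s t : II) (z : ℂ)
    (hz : ∀ x, g (seg s t x) ≠ z) : ∃ η : ℝ, 0 < η ∧ ∀ x, η ≤ ‖g (seg s t x) - z‖ := by
  have hc : Continuous fun u : II => ‖g (seg s t (u : ℝ)) - z‖ :=
    ((hg.comp ((seg_continuous s t).comp continuous_subtype_val)).sub continuous_const).norm
  obtain ⟨u, -, hu⟩ := isCompact_univ.exists_isMinOn (Set.univ_nonempty (α := II)) hc.continuousOn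
  refine ⟨‖g (seg s t (u : ℝ)) - z‖, norm_pos_iff.2 (sub_ne_zero.2 (hz _)), fun x => ?_⟩
  have h1 := hu (Set.mem_univ (Set.projIcc (0 : ℝ) 1 zero_le_one x))
  have h2 : seg s t ((Set.projIcc (0 : ℝ) 1 zero_le_one x : II) : ℝ) = seg s t x := by
    unfold seg
    rw [Set.projIcc_val]
  have h3 : ‖g (seg s t (u : ℝ)) - z‖ ≤
      ‖g (seg s t ((Set.projIcc (0 : ℝ) 1 zero_le_one x : II) : ℝ)) - z‖ := h1
  rw [h2] at h3
  exact h3

/-- the square relation for two pieces of curves which can be pulled apart -/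
theorem piece_square (g g' : II → ℂ) (hg : Continuous g) (hg' : Continuous g') (s t s' t' : II)
    (h1 : ∀ x, g (seg s t x) ≠ g' s') (h2 : ∀ x, g (seg s t x) ≠ g' t')
    (h3 : ∀ x, g' (seg s' t' x) ≠ g s) (h4 : ∀ x, g' (seg s' t' x) ≠ g t)
    (hsep : ∀ ε : ℝ, 0 < ε → ∃ α β : ℝ → ℂ, Continuous α ∧ Continuous β ∧
      (∀ x, ‖α x - g (seg s t x)‖ < ε) ∧ (∀ x, ‖β x - g' (seg s' t' x)‖ < ε) ∧
      ∀ x y, α x ≠ β y) :
    pvar g s t (g' s') - pvar g s t (g' t') + pvar g' s' t' (g t) - pvar g' s' t' (g s) = 0 := by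
  obtain ⟨η1, p1, q1⟩ := exists_dist g hg s t _ h1
  obtain ⟨η2, p2, q2⟩ := exists_dist g hg s t _ h2
  obtain ⟨η3, p3, q3⟩ := exists_dist g' hg' s' t' _ h3
  obtain ⟨η4, p4, q4⟩ := exists_dist g' hg' s' t' _ h4
  have h := square_relation (fun x => g (seg s t x)) (fun x => g' (seg s' t' x))
    (hg.comp (seg_continuous s t)) (hg'.comp (seg_continuous s' t'))
    (min (min η1 η2) (min η3 η4)) (lt_min (lt_min p1 p2) (lt_min p3 p4))
    (fun x => by
      simp only [seg_zero]
      exact ((min_le_left _ _).trans (min_le_left _ _)).trans (q1 x))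
    (fun x => by
      simp only [seg_one]
      exact ((min_le_left _ _).trans (min_le_right _ _)).trans (q2 x))
    (fun x => by
      simp only [seg_zero]
      exact ((min_le_right _ _).trans (min_le_left _ _)).trans (q3 x))
    (fun x => by
      simp only [seg_one]
      exact ((min_le_right _ _).trans (min_le_right _ _)).trans (q4 x))
    hsep
  simp only [seg_zero, seg_one] at h
  exact h

/-- A family of curves as in the problem, in the complex plane. -/
structure Fam {ι : Type} (γ : ι → II → ℂ) : Prop where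
  cont : ∀ i, Continuous (γ i)
  inj : ∀ i, Function.Injective (γ i)
  meet : ∀ i j, i ≠ j → (Set.range (γ i) ∩ Set.range (γ j)).Subsingleton
  sep : ∀ i j, i ≠ j → ∀ ε : ℝ, 0 < ε → ∃ α β : II → ℂ, Continuous α ∧ Continuous β ∧
    (∀ t, ‖α t - γ i t‖ < ε) ∧ (∀ t, ‖β t - γ j t‖ < ε) ∧ ∀ s t, α s ≠ β t

theorem Fam.restrict {ι κ : Type} {γ : ι → II → ℂ} (h : Fam γ) (f : κ → ι)
    (hf : Function.Injective f) : Fam fun k => γ (f k) where
  cont _ := h.cont _
  inj _ := h.inj _
  meet _ _ hkl := h.meet _ _ fun h' => hkl (hf h')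
  sep _ _ hkl := h.sep _ _ fun h' => hkl (hf h')

/-- the square relation for pieces of two different curves of the family -/
theorem Fam.square {ι : Type} {γ : ι → II → ℂ} (h : Fam γ) (i j : ι) (hij : i ≠ j)
    (s t s' t' : II)
    (h1 : ∀ x, γ i (seg s t x) ≠ γ j s') (h2 : ∀ x, γ i (seg s t x) ≠ γ j t')
    (h3 : ∀ x, γ j (seg s' t' x) ≠ γ i s) (h4 : ∀ x, γ j (seg s' t' x) ≠ γ i t) :
    pvar (γ i) s t (γ j s') - pvar (γ i) s t (γ j t') + pvar (γ j) s' t' (γ i t) -
      pvar (γ j) s' t' (γ i s) = 0 := by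
  refine piece_square _ _ (h.cont i) (h.cont j) s t s' t' h1 h2 h3 h4 fun ε hε => ?_
  obtain ⟨α, β, hα, hβ, hαc, hβc, hd⟩ := h.sep i j hij ε hε
  exact ⟨fun x => α (seg s t x), fun x => β (seg s' t' x), hα.comp (seg_continuous s t),
    hβ.comp (seg_continuous s' t'), fun x => hαc _, fun x => hβc _, fun x y => hd _ _⟩

end Pool.Agent.Lib.Pb0fea6
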