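import Mathlib
import Pool.Agent.Lib.Pb0fea6.Pieces
import Pool.Agent.Lib.Pb0fea6.Minor

/-!
The graph on a finite set `X` of points whose edges are the parts of the curves between
consecutive points of `X`, and the resulting bound on the number of incidences.
-/

set_option autoImplicit false

namespace Pool.Agent.Lib.Pb0fea6

open Complex

/-- `p`, `q` are consecutive points of `X` on the curve `i`, at parameters `s`, `t` -/
def Consec {ι : Type} (γ : ι → II → ℂ) (X : Finset ℂ) (p q : ℂ) (i : ι) (s t : II) : Prop :=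
  s ≠ t ∧ γ i s = p ∧ γ i t = q ∧ ∀ u, (s < u ∧ u < t) ∨ (t < u ∧ u < s) → γ i u ∉ X

/-- the graph on `X` whose edges are the pairs of consecutive points on a curve -/
def DG {ι : Type} (γ : ι → II → ℂ) (hγ : Fam γ) (X : Finset ℂ) : SimpleGraph {p : ℂ // p ∈ X} where
  Adj p q := ∃ i s t, Consec γ X p q i s t
  symm := ⟨by
    rintro p q ⟨i, s, t, h1, h2, h3, h4⟩
    exact ⟨i, t, s, h1.symm, h3, h2, fun u hu => h4 u hu.symm⟩⟩
  loopless := ⟨by
    rintro p ⟨i, s, t, h1, h2, h3, h4⟩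
    exact h1 (hγ.inj i (h2.trans h3.symm))⟩

theorem consec_notMem {ι : Type} {γ : ι → II → ℂ} {X : Finset ℂ} {p q : ℂ} {i : ι}
    {s t : II} (h : Consec γ X p q i s t) (v : ℂ) (hv : v ∈ X) (hvp : v ≠ p) (hvq : v ≠ q)
    (x : ℝ) : γ i (seg s t x) ≠ v := by
  obtain ⟨-, h2, h3, h4⟩ := h
  intro he
  have hu : seg s t x ≠ s := fun h' => hvp (by rw [← he, h', h2])
  have hu' : seg s t x ≠ t := fun h' => hvq (by rw [← he, h', h3])
  rcases seg_between s t x with ⟨a, b⟩ | ⟨a, b⟩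
  · exact h4 _ (Or.inl ⟨lt_of_le_of_ne a hu.symm, lt_of_le_of_ne b hu'⟩) (he ▸ hv)
  · exact h4 _ (Or.inr ⟨lt_of_le_of_ne a hu'.symm, lt_of_le_of_ne b hu⟩) (he ▸ hv)

theorem order_aux {α : Type} [LinearOrder α] (s t s' t' m : α) (b1 : s ≠ s') (b2 : s ≠ t')
    (b3 : t ≠ s') (b4 : t ≠ t') (d1 : (s ≤ m ∧ m ≤ t) ∨ (t ≤ m ∧ m ≤ s))
    (d2 : (s' ≤ m ∧ m ≤ t') ∨ (t' ≤ m ∧ m ≤ s'))
    (c1 : ¬ ((s < s' ∧ s' < t) ∨ (t < s' ∧ s' < s)))
    (c2 : ¬ ((s < t' ∧ t' < t) ∨ (t < t' ∧ t' < s)))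
    (c3 : ¬ ((s' < s ∧ s < t') ∨ (t' < s ∧ s < s')))
    (c4 : ¬ ((s' < t ∧ t < t') ∨ (t' < t ∧ t < s'))) : False := by
  rcases d1 with ⟨d, e⟩ | ⟨d, e⟩ <;> rcases d2 with ⟨d', e'⟩ | ⟨d', e'⟩
  · rcases lt_or_gt_of_ne b1 with h | h
    · exact c1 (Or.inl ⟨h, lt_of_le_of_ne (d'.trans e) b3.symm⟩)
    · exact c3 (Or.inl ⟨h, lt_of_le_of_ne (d.trans e') b2⟩)
  · rcases lt_or_gt_of_ne b2 with h | h
    · exact c2 (Or.inl ⟨h, lt_of_le_of_ne (d'.trans e) b4.symm⟩)
    · exact c3 (Or.inr ⟨h, lt_of_le_of_ne (d.trans e') b1⟩)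
  · rcases lt_or_gt_of_ne b3 with h | h
    · exact c1 (Or.inr ⟨h, lt_of_le_of_ne (d'.trans e) b1.symm⟩)
    · exact c4 (Or.inl ⟨h, lt_of_le_of_ne (d.trans e') b4⟩)
  · rcases lt_or_gt_of_ne b4 with h | h
    · exact c2 (Or.inr ⟨h, lt_of_le_of_ne (d'.trans e) b2.symm⟩)
    · exact c4 (Or.inr ⟨h, lt_of_le_of_ne (d.trans e') b3⟩)

theorem DG_no_K5 {ι : Type} (γ : ι → II → ℂ) (hγ : Fam γ) (X : Finset ℂ) :
    ¬ HasMinor (DG γ hγ X) 5 := by
  classical
  have hch : ∀ p q : {p : ℂ // p ∈ X}, ∃ r : ℂ → ℂ, (DG γ hγ X).Adj p q →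
      ∃ i s t, Consec γ X p q i s t ∧ r = pvar (γ i) s t := by
    intro p q
    by_cases h : (DG γ hγ X).Adj p q
    · obtain ⟨i, s, t, h'⟩ := h
      exact ⟨_, fun _ => ⟨i, s, t, h', rfl⟩⟩
    · exact ⟨fun _ => 0, fun h' => absurd h' h⟩
  choose r hr using hch
  refine no_K5 (DG γ hγ X) (fun p => p.1) (fun p q v => r p q v.1) ?_ ?_ ?_
  · intro u v huv h
    exact huv (Subtype.ext h)
  · intro u w v huw hvu hvw
    obtain ⟨i, s, t, hc, hr'⟩ := hr u w huw
    rw [hr']
    rw [exp_pvar _ (hγ.cont i) _ _ _ (consec_notMem hc v.1 v.2 (fun h => hvu (Subtype.ext h))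
      (fun h => hvw (Subtype.ext h)))]
    rw [hc.2.1, hc.2.2.1]
  · intro u w x y huw hxy hux huy hwx hwy
    obtain ⟨i, s, t, hc, hr1⟩ := hr u w huw
    obtain ⟨j, s', t', hc', hr2⟩ := hr x y hxy
    rw [hr1, hr2]
    have e1 := hc.2.1
    have e2 := hc.2.2.1
    have e3 := hc'.2.1
    have e4 := hc'.2.2.1
    have n1 : ∀ z, γ i (seg s t z) ≠ γ j s' := by
      rw [e3]
      exact consec_notMem hc x.1 x.2 (fun h => hux (Subtype.ext h.symm))
        (fun h => hwx (Subtype.ext h.symm))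
    have n2 : ∀ z, γ i (seg s t z) ≠ γ j t' := by
      rw [e4]
      exact consec_notMem hc y.1 y.2 (fun h => huy (Subtype.ext h.symm))
        (fun h => hwy (Subtype.ext h.symm))
    have n3 : ∀ z, γ j (seg s' t' z) ≠ γ i s := by
      rw [e1]
      exact consec_notMem hc' u.1 u.2 (fun h => hux (Subtype.ext h))
        (fun h => huy (Subtype.ext h))
    have n4 : ∀ z, γ j (seg s' t' z) ≠ γ i t := by
      rw [e2]
      exact consec_notMem hc' w.1 w.2 (fun h => hwx (Subtype.ext h))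
        (fun h => hwy (Subtype.ext h))
    rw [← e3, ← e4, ← e1, ← e2]
    by_cases hij : i = j
    · subst hij
      refine piece_square _ _ (hγ.cont i) (hγ.cont i) s t s' t' n1 n2 n3 n4 fun ε hε => ?_
      refine ⟨fun z => γ i (seg s t z), fun z => γ i (seg s' t' z),
        (hγ.cont i).comp (seg_continuous s t), (hγ.cont i).comp (seg_continuous s' t'),
        fun z => by simpa using hε, fun z => by simpa using hε, fun z z' hz => ?_⟩
      have hz := hγ.inj i hz
      have a1 : seg s t z ≠ s' := fun h => n1 z (by rw [h])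
      have a2 : seg s t z ≠ t' := fun h => n2 z (by rw [h])
      have a3 : seg s' t' z' ≠ s := fun h => n3 z' (by rw [h])
      have a4 : seg s' t' z' ≠ t := fun h => n4 z' (by rw [h])
      have b1 : s ≠ s' := fun h => n1 0 (by rw [seg_zero, h])
      have b2 : s ≠ t' := fun h => n2 0 (by rw [seg_zero, h])
      have b3 : t ≠ s' := fun h => n1 1 (by rw [seg_one, h])
      have b4 : t ≠ t' := fun h => n2 1 (by rw [seg_one, h])
      have c1 : ¬ ((s < s' ∧ s' < t) ∨ (t < s' ∧ s' < s)) := fun h =>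
        hc.2.2.2 s' h (by rw [e3]; exact x.2)
      have c2 : ¬ ((s < t' ∧ t' < t) ∨ (t < t' ∧ t' < s)) := fun h =>
        hc.2.2.2 t' h (by rw [e4]; exact y.2)
      have c3 : ¬ ((s' < s ∧ s < t') ∨ (t' < s ∧ s < s')) := fun h =>
        hc'.2.2.2 s h (by rw [e1]; exact u.2)
      have c4 : ¬ ((s' < t ∧ t < t') ∨ (t' < t ∧ t < s')) := fun h =>
        hc'.2.2.2 t h (by rw [e2]; exact w.2)
      have d1 := seg_between s t z
      have d2 := seg_between s' t' z'
      rw [← hz] at d2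
      exact order_aux s t s' t' _ b1 b2 b3 b4 d1 d2 c1 c2 c3 c4
    · exact hγ.square i j hij s t s' t' n1 n2 n3 n4

open Classical in
/-- the curves through a point -/
noncomputable def load {ι : Type} [Fintype ι] (γ : ι → II → ℂ) (p : ℂ) : Finset ι :=
  Finset.univ.filter fun i => p ∈ Set.range (γ i)

open Classical in
theorem sum_load_le {ι : Type} [Fintype ι] (γ : ι → II → ℂ) (hγ : Fam γ) (X : Finset ℂ) :
    ∑ p ∈ X, (load γ p).card ≤ Fintype.card ι + 16 * X.card := by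
  rcases X.eq_empty_or_nonempty with rfl | hX
  · simp
  have : Nonempty {p : ℂ // p ∈ X} := ⟨⟨hX.choose, hX.choose_spec⟩⟩
  have hN : N (DG γ hγ X) ≤ 16 * X.card := by
    by_contra hcon
    push Not at hcon
    refine DG_no_K5 γ hγ X (hasMinor_of_N 4 _ _ ?_)
    rw [Fintype.card_coe]
    have : (2 : ℕ) ^ 4 = 16 := by norm_num
    omega
  refine le_trans ?_ (Nat.add_le_add_left hN _)
  -- double counting
  have h1 : ∑ p ∈ X, (load γ p).card =
      ∑ i : ι, (X.filter fun p => p ∈ Set.range (γ i)).card := by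
    simp only [load, Finset.card_filter]
    rw [Finset.sum_comm]
  rw [h1]
  let A : ι → Finset ({p : ℂ // p ∈ X} × {p : ℂ // p ∈ X}) := fun i =>
    Finset.univ.filter fun pq => ∃ s t, s < t ∧ Consec γ X pq.1.1 pq.2.1 i s t
  have hA : ∀ i, (X.filter fun p => p ∈ Set.range (γ i)).card ≤ 1 + (A i).card := by
    intro i
    -- parameters of the points of `X` on curve `i`
    have hfin : {u : II | γ i u ∈ X}.Finite :=
      Set.Finite.preimage ((hγ.inj i).injOn) X.finite_toSet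
    let P := hfin.toFinset
    have hP : ∀ u, u ∈ P ↔ γ i u ∈ X := fun u => by simp [P]
    rcases P.eq_empty_or_nonempty with hPe | hPn
    · have : (X.filter fun p => p ∈ Set.range (γ i)) = ∅ := by
        rw [Finset.filter_eq_empty_iff]
        rintro p hp ⟨u, rfl⟩
        have := (hP u).2 hp
        rw [hPe] at this
        exact absurd this (Finset.notMem_empty _)
      rw [this]; simp
    · have hsub : (X.filter fun p => p ∈ Set.range (γ i)) ⊆
          {γ i (P.min' hPn)} ∪ (A i).image (fun pq => pq.2.1) := by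
        intro p hp
        obtain ⟨hpX, t, rfl⟩ := Finset.mem_filter.1 hp
        have htP : t ∈ P := (hP t).2 hpX
        by_cases ht : t = P.min' hPn
        · rw [← ht]
          exact Finset.mem_union_left _ (Finset.mem_singleton_self _)
        · refine Finset.mem_union_right _ (Finset.mem_image.2 ?_)
          have hlt : P.min' hPn < t := lt_of_le_of_ne (P.min'_le t htP) (Ne.symm ht)
          let Q := P.filter fun u => u < t
          have hQ : Q.Nonempty := ⟨P.min' hPn, Finset.mem_filter.2 ⟨P.min'_mem hPn, hlt⟩⟩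
          have hs := Finset.mem_filter.1 (Q.max'_mem hQ)
          have hsX : γ i (Q.max' hQ) ∈ X := (hP _).1 hs.1
          refine ⟨(⟨γ i (Q.max' hQ), hsX⟩, ⟨γ i t, hpX⟩), Finset.mem_filter.2
            ⟨Finset.mem_univ _, Q.max' hQ, t, hs.2, hs.2.ne, rfl, rfl, ?_⟩, rfl⟩
          rintro u (⟨hu1, hu2⟩ | ⟨hu1, hu2⟩) huX
          · have : u ∈ Q := Finset.mem_filter.2 ⟨(hP u).2 huX, hu2⟩
            exact absurd (Q.le_max' u this) (not_le.2 hu1)
          · exact absurd (hu1.trans hu2) (not_lt.2 hs.2.le)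
      refine (Finset.card_le_card hsub).trans ((Finset.card_union_le _ _).trans ?_)
      rw [Finset.card_singleton]
      exact Nat.add_le_add_left Finset.card_image_le _
  have hsumA : ∑ i, (A i).card ≤ N (DG γ hγ X) := by
    rw [← Finset.card_biUnion]
    · refine Finset.card_le_card ?_
      intro pq hpq
      obtain ⟨i, -, hi⟩ := Finset.mem_biUnion.1 hpq
      obtain ⟨-, s, t, -, hst⟩ := Finset.mem_filter.1 hi
      exact Finset.mem_filter.2 ⟨Finset.mem_univ _, i, s, t, hst⟩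
    · intro i _ j _ hij
      refine Finset.disjoint_left.2 ?_
      intro pq h1 h2
      obtain ⟨-, s, t, hst, -, e1, e2, -⟩ := Finset.mem_filter.1 h1
      obtain ⟨-, s', t', hst', -, e3, e4, -⟩ := Finset.mem_filter.1 h2
      have h3 : pq.1.1 ∈ Set.range (γ i) ∩ Set.range (γ j) := ⟨⟨s, e1⟩, ⟨s', e3⟩⟩
      have h4 : pq.2.1 ∈ Set.range (γ i) ∩ Set.range (γ j) := ⟨⟨t, e2⟩, ⟨t', e4⟩⟩
      have h5 := hγ.meet i j hij h3 h4
      exact hst.ne (hγ.inj i (e1.trans (h5.trans e2.symm)))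
  calc ∑ i : ι, (X.filter fun p => p ∈ Set.range (γ i)).card ≤ ∑ i : ι, (1 + (A i).card) :=
        Finset.sum_le_sum fun i _ => hA i
    _ = Fintype.card ι + ∑ i, (A i).card := by
        rw [Finset.sum_add_distrib]; simp
    _ ≤ _ := Nat.add_le_add_left hsumA _

end Pool.Agent.Lib.Pb0fea6
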