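import Mathlib
import Pool.Agent.Lib.Pb0fea6.Heavy

/-!
The number of points lying on few curves is linear in the number of curves.
-/

set_option autoImplicit false

namespace Pool.Agent.Lib.Pb0fea6

open Complex

/-- `i` and `j` meet in a point that lies on no other curve -/
def HG {ι : Type} (γ : ι → II → ℂ) : SimpleGraph ι where
  Adj i j := i ≠ j ∧ ∃ p, p ∈ Set.range (γ i) ∧ p ∈ Set.range (γ j) ∧
    ∀ l, p ∈ Set.range (γ l) → l = i ∨ l = j
  symm := ⟨by
    rintro i j ⟨h, p, h1, h2, h3⟩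
    exact ⟨h.symm, p, h2, h1, fun l hl => (h3 l hl).symm⟩⟩
  loopless := ⟨fun _ h => h.1 rfl⟩

theorem exists_base {ι : Type} [Finite ι] (γ : ι → II → ℂ) (hγ : Fam γ) (i : ι) :
    ∃ b : II, ∀ j, j ≠ i → γ i b ∉ Set.range (γ j) := by
  have hfin : (⋃ j ∈ {j : ι | j ≠ i}, {u : II | γ i u ∈ Set.range (γ j)}).Finite := by
    refine Set.Finite.biUnion (Set.toFinite _) fun j hj => ?_
    refine Set.Subsingleton.finite fun u hu v hv => ?_
    exact hγ.inj i (hγ.meet i j (Ne.symm hj) ⟨⟨u, rfl⟩, hu⟩ ⟨⟨v, rfl⟩, hv⟩)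
  have hinf : (Set.univ : Set II).Infinite := by
    have : Infinite II := by
      unfold II
      exact Set.infinite_coe_iff.2 (Set.Icc_infinite (by norm_num))
    exact Set.infinite_univ
  obtain ⟨b, -, hb⟩ := hinf.exists_notMem_finite hfin
  refine ⟨b, fun j hj h => hb ?_⟩
  simp only [Set.mem_iUnion]
  exact ⟨j, hj, h⟩

theorem HG_no_K5 {ι : Type} [Finite ι] (γ : ι → II → ℂ) (hγ : Fam γ) :
    ¬ HasMinor (HG γ) 5 := by
  classical
  choose b hb using exists_base γ hγ
  have hch : ∀ i j : ι, ∃ s t : II, (HG γ).Adj i j →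
      γ i s = γ j t ∧ ∀ l, γ i s ∈ Set.range (γ l) → l = i ∨ l = j := by
    intro i j
    by_cases h : (HG γ).Adj i j
    · obtain ⟨-, p, ⟨s, hs⟩, ⟨t, ht⟩, h'⟩ := h
      exact ⟨s, t, fun _ => ⟨hs.trans ht.symm, fun l hl => h' l (hs ▸ hl)⟩⟩
    · exact ⟨0, 0, fun h' => absurd h' h⟩
  choose s t hst using hch
  refine no_K5 (HG γ) (fun i => γ i (b i))
    (fun i j v => pvar (γ i) (b i) (s i j) (γ v (b v)) + pvar (γ j) (t i j) (b j) (γ v (b v)))
    ?_ ?_ ?_
  · intro u v huv h
    exact hb u v huv.symm ⟨b v, h.symm⟩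
  · intro u w v huw hvu hvw
    obtain ⟨h1, h2⟩ := hst u w huw
    have a1 : ∀ x, γ u (seg (b u) (s u w) x) ≠ γ v (b v) := fun x h =>
      hb v u (Ne.symm hvu) ⟨_, h⟩
    have a2 : ∀ x, γ w (seg (t u w) (b w) x) ≠ γ v (b v) := fun x h =>
      hb v w (Ne.symm hvw) ⟨_, h⟩
    rw [exp_add, exp_pvar _ (hγ.cont u) _ _ _ a1, exp_pvar _ (hγ.cont w) _ _ _ a2, ← h1]
    have a3 : γ u (s u w) - γ v (b v) ≠ 0 :=
      sub_ne_zero.2 fun h => hb v u (Ne.symm hvu) ⟨_, h⟩
    have a4 : γ u (b u) - γ v (b v) ≠ 0 :=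
      sub_ne_zero.2 fun h => hb v u (Ne.symm hvu) ⟨_, h⟩
    field_simp
  · intro u w x y huw hxy hux huy hwx hwy
    obtain ⟨e1, o1⟩ := hst u w huw
    obtain ⟨e2, o2⟩ := hst x y hxy
    -- the contact point of `u`, `w` is not on `x`, `y` and conversely
    have nx : γ u (s u w) ∉ Set.range (γ x) := fun h => by
      rcases o1 x h with h | h
      · exact hux h.symm
      · exact hwx h.symm
    have ny : γ u (s u w) ∉ Set.range (γ y) := fun h => by
      rcases o1 y h with h | h
      · exact huy h.symm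
      · exact hwy h.symm
    have nu : γ x (s x y) ∉ Set.range (γ u) := fun h => by
      rcases o2 u h with h | h
      · exact hux h
      · exact huy h
    have nw : γ x (s x y) ∉ Set.range (γ w) := fun h => by
      rcases o2 w h with h | h
      · exact hwx h
      · exact hwy h
    have s1 := hγ.square u x hux (b u) (s u w) (b x) (s x y)
      (fun z h => hb x u hux ⟨_, h⟩) (fun z h => nu ⟨_, h⟩)
      (fun z h => hb u x hux.symm ⟨_, h⟩) (fun z h => nx ⟨_, h⟩)
    have s2 := hγ.square u y huy (b u) (s u w) (t x y) (b y)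
      (fun z h => nu ⟨_, h.trans e2.symm⟩) (fun z h => hb y u huy ⟨_, h⟩)
      (fun z h => hb u y huy.symm ⟨_, h⟩) (fun z h => ny ⟨_, h⟩)
    have s3 := hγ.square w x hwx (t u w) (b w) (b x) (s x y)
      (fun z h => hb x w hwx ⟨_, h⟩) (fun z h => nw ⟨_, h⟩)
      (fun z h => nx ⟨_, h.trans e1.symm⟩) (fun z h => hb w x hwx.symm ⟨_, h⟩)
    have s4 := hγ.square w y hwy (t u w) (b w) (t x y) (b y)
      (fun z h => nw ⟨_, h.trans e2.symm⟩) (fun z h => hb y w hwy ⟨_, h⟩)
      (fun z h => ny ⟨_, h.trans e1.symm⟩) (fun z h => hb w y hwy.symm ⟨_, h⟩)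
    rw [← e2] at s2 s4
    rw [← e1] at s3 s4
    linear_combination s1 + s2 + s3 + s4

open Classical in
theorem card_le_of_load_two {ι : Type} [Fintype ι] (γ : ι → II → ℂ) (hγ : Fam γ)
    (P : Finset ℂ) (hP : ∀ p ∈ P, (load γ p).card = 2) : P.card ≤ 16 * Fintype.card ι := by
  rcases isEmpty_or_nonempty ι with hι | hι
  · have : P = ∅ := by
      rw [Finset.eq_empty_iff_forall_notMem]
      intro p hp
      have := hP p hp
      rw [Finset.eq_empty_of_isEmpty (load γ p)] at this
      simp at this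
    rw [this]; simp
  by_contra hcon
  push Not at hcon
  refine HG_no_K5 γ hγ (hasMinor_of_N 4 _ _ ?_)
  have h24 : (2 : ℕ) ^ 4 = 16 := by norm_num
  rw [h24]
  refine hcon.le.trans ?_
  have hch : ∀ p : ℂ, ∃ ij : ι × ι, p ∈ P → ij.1 ≠ ij.2 ∧ load γ p = {ij.1, ij.2} := by
    intro p
    by_cases hp : p ∈ P
    · obtain ⟨i, j, hij, h⟩ := Finset.card_eq_two.1 (hP p hp)
      exact ⟨(i, j), fun _ => ⟨hij, h⟩⟩
    · obtain ⟨i⟩ := hι
      exact ⟨(i, i), fun h => absurd h hp⟩
  choose f hf using hch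
  have hmem : ∀ p ∈ P, ∀ l, p ∈ Set.range (γ l) ↔ l = (f p).1 ∨ l = (f p).2 := by
    intro p hp l
    have h1 : l ∈ load γ p ↔ l = (f p).1 ∨ l = (f p).2 := by
      rw [(hf p hp).2]; simp
    rw [← h1]
    simp [load]
  refine Finset.card_le_card_of_injOn f ?_ ?_
  · intro p hp
    refine Finset.mem_filter.2 ⟨Finset.mem_univ _, (hf p hp).1, p, ?_, ?_, ?_⟩
    · exact (hmem p hp _).2 (Or.inl rfl)
    · exact (hmem p hp _).2 (Or.inr rfl)
    · intro l hl
      exact (hmem p hp l).1 hl
  · intro p hp q hq hpq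
    have h1 := hγ.meet _ _ (hf p hp).1
    refine h1 ⟨(hmem p hp _).2 (Or.inl rfl), (hmem p hp _).2 (Or.inr rfl)⟩ ⟨?_, ?_⟩
    · exact (hmem q hq _).2 (Or.inl (by rw [hpq]))
    · exact (hmem q hq _).2 (Or.inr (by rw [hpq]))

open Classical in
theorem card_sets_ge {ι : Type} [Fintype ι] (L : Finset ι) (hL : 2 ≤ L.card) :
    2 ^ Fintype.card ι ≤ 2 ^ L.card *
      (Finset.univ.filter fun S : Finset ι => (S ∩ L).card = 2).card := by
  obtain ⟨M, hML, hM⟩ := Finset.exists_subset_card_eq hL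
  have h1 : (Lᶜ).powerset.card ≤
      (Finset.univ.filter fun S : Finset ι => (S ∩ L).card = 2).card := by
    refine Finset.card_le_card_of_injOn (fun T => T ∪ M) ?_ ?_
    · intro T hT
      have hT' : T ⊆ Lᶜ := Finset.mem_powerset.1 hT
      refine Finset.mem_filter.2 ⟨Finset.mem_univ _, ?_⟩
      have : (T ∪ M) ∩ L = M := by
        ext x
        simp only [Finset.mem_inter, Finset.mem_union]
        constructor
        · rintro ⟨h | h, h'⟩
          · exact absurd h' (Finset.mem_compl.1 (hT' h))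
          · exact h
        · intro h
          exact ⟨Or.inr h, hML h⟩
      rw [this, hM]
    · intro T hT T' hT' h
      have hT1 : T ⊆ Lᶜ := Finset.mem_powerset.1 hT
      have hT2 : T' ⊆ Lᶜ := Finset.mem_powerset.1 hT'
      have h2 : T ∪ M = T' ∪ M := h
      have key : ∀ U : Finset ι, U ⊆ Lᶜ → (U ∪ M) \ M = U := by
        intro U hU
        ext x
        simp only [Finset.mem_sdiff, Finset.mem_union]
        constructor
        · rintro ⟨h | h, h'⟩
          · exact h
          · exact absurd h h'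
        · intro h
          exact ⟨Or.inl h, fun h' => Finset.mem_compl.1 (hU h) (hML h')⟩
      rw [← key T hT1, ← key T' hT2, h2]
  rw [Finset.card_powerset, Finset.card_compl] at h1
  calc 2 ^ Fintype.card ι = 2 ^ L.card * 2 ^ (Fintype.card ι - L.card) := by
        rw [← pow_add, Nat.add_sub_cancel' (Finset.card_le_univ L)]
    _ ≤ _ := Nat.mul_le_mul_left _ h1

open Classical in
theorem card_light_le {ι : Type} [Fintype ι] (γ : ι → II → ℂ) (hγ : Fam γ) (C : ℕ)
    (P : Finset ℂ) (hP : ∀ p ∈ P, 2 ≤ (load γ p).card ∧ (load γ p).card ≤ C) :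
    P.card ≤ 2 ^ C * (16 * Fintype.card ι) := by
  have hS : ∀ S : Finset ι, (P.filter fun p => (S ∩ load γ p).card = 2).card ≤
      16 * Fintype.card ι := by
    intro S
    have h1 := card_le_of_load_two (fun i : S => γ i.1) (hγ.restrict _ Subtype.val_injective)
      (P.filter fun p => (S ∩ load γ p).card = 2) (by
        intro p hp
        rw [← (Finset.mem_filter.1 hp).2]
        have : S ∩ load γ p = (load (fun i : S => γ i.1) p).map ⟨Subtype.val, Subtype.val_injective⟩ := by
          ext i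
          simp only [load, Finset.mem_inter, Finset.mem_filter, Finset.mem_univ, true_and,
            Finset.mem_map, Function.Embedding.coeFn_mk]
          constructor
          · rintro ⟨h1, h2⟩
            exact ⟨⟨i, h1⟩, h2, rfl⟩
          · rintro ⟨j, h1, rfl⟩
            exact ⟨j.2, h1⟩
        rw [this, Finset.card_map])
    refine h1.trans ?_
    rw [Fintype.card_coe]
    exact Nat.mul_le_mul_left _ (Finset.card_le_univ S)
  have h1 : ∑ S : Finset ι, (P.filter fun p => (S ∩ load γ p).card = 2).card ≤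
      2 ^ Fintype.card ι * (16 * Fintype.card ι) := by
    refine (Finset.sum_le_card_nsmul _ _ _ fun S _ => hS S).trans ?_
    rw [Finset.card_univ, Fintype.card_finset, smul_eq_mul]
  have h2 : ∑ S : Finset ι, (P.filter fun p => (S ∩ load γ p).card = 2).card =
      ∑ p ∈ P, (Finset.univ.filter fun S : Finset ι => (S ∩ load γ p).card = 2).card := by
    simp only [Finset.card_filter]
    rw [Finset.sum_comm]
  have h3 : P.card * 2 ^ Fintype.card ι ≤ 2 ^ C *
      ∑ p ∈ P, (Finset.univ.filter fun S : Finset ι => (S ∩ load γ p).card = 2).card := by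
    rw [Finset.mul_sum, ← smul_eq_mul]
    refine Finset.card_nsmul_le_sum _ _ _ fun p hp => ?_
    refine (card_sets_ge (load γ p) (hP p hp).1).trans ?_
    exact Nat.mul_le_mul_right _ (Nat.pow_le_pow_right (by norm_num) (hP p hp).2)
  rw [← h2] at h3
  have h4 : P.card * 2 ^ Fintype.card ι ≤ 2 ^ C * (16 * Fintype.card ι) * 2 ^ Fintype.card ι := by
    calc P.card * 2 ^ Fintype.card ι ≤ _ := h3
      _ ≤ 2 ^ C * (2 ^ Fintype.card ι * (16 * Fintype.card ι)) := Nat.mul_le_mul_left _ h1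
      _ = _ := by ring
  exact Nat.le_of_mul_le_mul_right h4 (by positivity)

end Pool.Agent.Lib.Pb0fea6
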