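import Mathlib
import Pool.Agent.Lib.Pb0fea6.Light

/-!
In a family of curves with at most `k` curves through every point, some curve meets at most
`k + c` others; consequently the family can be coloured with `k + c + 1` colours.
-/

set_option autoImplicit false

namespace Pool.Agent.Lib.Pb0fea6

/-- the constant -/
def cc : ℕ := 255 + 240 * (2 ^ 16 * 16)

/-- two curves meet -/
def Meet {ι : Type} (γ : ι → II → ℂ) (i j : ι) : Prop :=
  (Set.range (γ i) ∩ Set.range (γ j)).Nonempty

open Classical in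
theorem pairs_le {ι : Type} [Fintype ι] (γ : ι → II → ℂ) (hγ : Fam γ) (k : ℕ)
    (hk : ∀ p, (load γ p).card ≤ k) :
    (Finset.univ.filter fun ij : ι × ι => ij.1 ≠ ij.2 ∧ Meet γ ij.1 ij.2).card ≤
      (k + cc) * Fintype.card ι := by
  let M := Finset.univ.filter fun ij : ι × ι => ij.1 ≠ ij.2 ∧ Meet γ ij.1 ij.2
  let pt : ι × ι → ℂ := fun ij => if h : Meet γ ij.1 ij.2 then h.choose else 0
  have hpt : ∀ ij, Meet γ ij.1 ij.2 → pt ij ∈ Set.range (γ ij.1) ∧ pt ij ∈ Set.range (γ ij.2) := by
    intro ij h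
    simp only [pt, dif_pos h]
    exact h.choose_spec
  let P := M.image pt
  have hP2 : ∀ p ∈ P, 2 ≤ (load γ p).card := by
    intro p hp
    obtain ⟨ij, hij, rfl⟩ := Finset.mem_image.1 hp
    obtain ⟨-, hne, hm⟩ := Finset.mem_filter.1 hij
    have h1 : ({ij.1, ij.2} : Finset ι) ⊆ load γ (pt ij) := by
      intro l hl
      rcases Finset.mem_insert.1 hl with rfl | hl
      · exact Finset.mem_filter.2 ⟨Finset.mem_univ _, (hpt ij hm).1⟩
      · rw [Finset.mem_singleton.1 hl]
        exact Finset.mem_filter.2 ⟨Finset.mem_univ _, (hpt ij hm).2⟩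
    rw [← Finset.card_pair hne]
    exact Finset.card_le_card h1
  have hM : M.card ≤ ∑ p ∈ P, (load γ p).card * ((load γ p).card - 1) := by
    rw [Finset.card_eq_sum_card_image pt M]
    refine Finset.sum_le_sum fun p _ => ?_
    have : (M.filter fun ij => pt ij = p) ⊆ (load γ p).offDiag := by
      intro ij hij
      obtain ⟨h1, rfl⟩ := Finset.mem_filter.1 hij
      obtain ⟨-, hne, hm⟩ := Finset.mem_filter.1 h1
      exact Finset.mem_offDiag.2 ⟨Finset.mem_filter.2 ⟨Finset.mem_univ _, (hpt ij hm).1⟩,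
        Finset.mem_filter.2 ⟨Finset.mem_univ _, (hpt ij hm).2⟩, hne⟩
    refine (Finset.card_le_card this).trans ?_
    rw [Finset.offDiag_card, Nat.mul_sub, mul_one]
  let X := P.filter fun p => 16 < (load γ p).card
  let L := P.filter fun p => ¬ 16 < (load γ p).card
  have hsplit : ∑ p ∈ P, (load γ p).card * ((load γ p).card - 1) =
      ∑ p ∈ X, (load γ p).card * ((load γ p).card - 1) +
      ∑ p ∈ L, (load γ p).card * ((load γ p).card - 1) :=
    (Finset.sum_filter_add_sum_filter_not _ _ _).symm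
  have hL : ∑ p ∈ L, (load γ p).card * ((load γ p).card - 1) ≤
      240 * (2 ^ 16 * (16 * Fintype.card ι)) := by
    have h1 : L.card ≤ 2 ^ 16 * (16 * Fintype.card ι) := by
      refine card_light_le γ hγ 16 L fun p hp => ?_
      obtain ⟨h1, h2⟩ := Finset.mem_filter.1 hp
      exact ⟨hP2 p h1, not_lt.1 h2⟩
    calc ∑ p ∈ L, (load γ p).card * ((load γ p).card - 1) ≤ ∑ p ∈ L, 240 := by
          refine Finset.sum_le_sum fun p hp => ?_
          obtain ⟨h1, h2⟩ := Finset.mem_filter.1 hp
          have h3 : (load γ p).card ≤ 16 := not_lt.1 h2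
          calc (load γ p).card * ((load γ p).card - 1) ≤ 16 * 15 :=
                Nat.mul_le_mul h3 (by omega)
            _ = 240 := by norm_num
      _ = 240 * L.card := by rw [Finset.sum_const, smul_eq_mul, mul_comm]
      _ ≤ _ := Nat.mul_le_mul_left _ h1
  have hX : ∑ p ∈ X, (load γ p).card * ((load γ p).card - 1) ≤
      (k + 255) * Fintype.card ι := by
    have h1 := sum_load_le γ hγ X
    have h2 : ∑ p ∈ X, ((load γ p).card - 16) ≤ Fintype.card ι := by
      have h3 : ∑ p ∈ X, ((load γ p).card - 16) + 16 * X.card = ∑ p ∈ X, (load γ p).card := by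
        have : 16 * X.card = ∑ p ∈ X, 16 := by
          rw [Finset.sum_const, smul_eq_mul, mul_comm]
        rw [this, ← Finset.sum_add_distrib]
        refine Finset.sum_congr rfl fun p hp => ?_
        have := (Finset.mem_filter.1 hp).2
        omega
      omega
    calc ∑ p ∈ X, (load γ p).card * ((load γ p).card - 1) ≤
        ∑ p ∈ X, (k + 255) * ((load γ p).card - 16) := by
          refine Finset.sum_le_sum fun p hp => ?_
          have h3 : 16 < (load γ p).card := (Finset.mem_filter.1 hp).2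
          have h4 := hk p
          obtain ⟨a, ha⟩ : ∃ a, (load γ p).card = a + 17 := ⟨(load γ p).card - 17, by omega⟩
          rw [ha] at h4 ⊢
          have h5 : a + 17 - 1 = a + 16 := by omega
          have h6 : a + 17 - 16 = a + 1 := by omega
          rw [h5, h6]
          obtain ⟨b, rfl⟩ : ∃ b, k = a + 17 + b := ⟨k - (a + 17), by omega⟩
          nlinarith [Nat.zero_le (a * b), Nat.zero_le b, Nat.zero_le a]
      _ = (k + 255) * ∑ p ∈ X, ((load γ p).card - 16) := by rw [Finset.mul_sum]
      _ ≤ _ := Nat.mul_le_mul_left _ h2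
  calc M.card ≤ _ := hM
    _ = _ := hsplit
    _ ≤ (k + 255) * Fintype.card ι + 240 * (2 ^ 16 * (16 * Fintype.card ι)) :=
        Nat.add_le_add hX hL
    _ = (k + cc) * Fintype.card ι := by unfold cc; ring

open Classical in
theorem exists_small {ι : Type} [Fintype ι] [Nonempty ι] (γ : ι → II → ℂ) (hγ : Fam γ) (k : ℕ)
    (hk : ∀ p, (load γ p).card ≤ k) :
    ∃ i, (Finset.univ.filter fun j => i ≠ j ∧ Meet γ i j).card ≤ k + cc := by
  by_contra hcon
  push Not at hcon
  have h1 := pairs_le γ hγ k hk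
  have h2 : (Finset.univ.filter fun ij : ι × ι => ij.1 ≠ ij.2 ∧ Meet γ ij.1 ij.2).card =
      ∑ i, (Finset.univ.filter fun j => i ≠ j ∧ Meet γ i j).card := by
    simp only [Finset.card_filter]
    rw [← Finset.univ_product_univ, Finset.sum_product]
  rw [h2] at h1
  have h3 : ∑ i : ι, (k + cc) < ∑ i, (Finset.univ.filter fun j => i ≠ j ∧ Meet γ i j).card :=
    Finset.sum_lt_sum_of_nonempty Finset.univ_nonempty fun i _ => hcon i
  rw [Finset.sum_const, Finset.card_univ, smul_eq_mul, mul_comm] at h3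
  omega

open Classical in
theorem colouring {ι : Type} [Fintype ι] (γ : ι → II → ℂ) (hγ : Fam γ) (k : ℕ)
    (hk : ∀ p, (load γ p).card ≤ k) :
    ∀ S : Finset ι, ∃ f : ι → Fin (k + (cc + 1)), ∀ i ∈ S, ∀ j ∈ S, i ≠ j → Meet γ i j →
      f i ≠ f j := by
  intro S
  induction S using Finset.strongInduction with
  | _ S ih =>
  rcases S.eq_empty_or_nonempty with rfl | hS
  · exact ⟨fun _ => ⟨0, by omega⟩, fun i hi => absurd hi (Finset.notMem_empty _)⟩
  have : Nonempty S := ⟨⟨hS.choose, hS.choose_spec⟩⟩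
  have hload : ∀ p, (load (fun i : S => γ i.1) p).card ≤ k := by
    intro p
    refine le_trans ?_ (hk p)
    refine Finset.card_le_card_of_injOn (fun i => i.1) ?_ (fun i _ j _ h => Subtype.ext h)
    intro i hi
    exact Finset.mem_filter.2 ⟨Finset.mem_univ _, (Finset.mem_filter.1 hi).2⟩
  obtain ⟨⟨i, hi⟩, hdeg⟩ := exists_small (fun i : S => γ i.1)
    (hγ.restrict _ Subtype.val_injective) k hload
  obtain ⟨f, hf⟩ := ih (S.erase i) (Finset.erase_ssubset hi)
  let B : Finset ι := S.filter fun j => i ≠ j ∧ Meet γ i j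
  have hB : B.card ≤ k + cc := by
    refine le_trans ?_ hdeg
    refine Finset.card_le_card_of_surjOn (fun j => j.1) ?_
    intro j hj
    obtain ⟨h1, h2, h3⟩ := Finset.mem_filter.1 hj
    refine ⟨⟨j, h1⟩, ?_, rfl⟩
    rw [Finset.mem_coe]
    simp only [Finset.mem_filter, Finset.mem_univ, true_and]
    exact ⟨fun h => h2 (congrArg Subtype.val h), h3⟩
  obtain ⟨c, hc⟩ : ∃ c : Fin (k + (cc + 1)), c ∉ B.image f := by
    by_contra hcon
    push Not at hcon
    have h1 : (Finset.univ : Finset (Fin (k + (cc + 1)))) ⊆ B.image f := fun c _ => hcon c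
    have h2 := Finset.card_le_card h1
    rw [Finset.card_univ, Fintype.card_fin] at h2
    have h3 := Finset.card_image_le (s := B) (f := f)
    omega
  refine ⟨Function.update f i c, fun a ha b hb hab hm => ?_⟩
  have hsymm : ∀ x y, Meet γ x y → Meet γ y x := fun x y h => by
    unfold Meet at h ⊢
    rwa [Set.inter_comm]
  by_cases hai : a = i
  · subst hai
    rw [Function.update_self, Function.update_of_ne hab.symm]
    intro h
    exact hc (Finset.mem_image.2 ⟨b, Finset.mem_filter.2 ⟨hb, hab, hm⟩, h.symm⟩)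
  · by_cases hbi : b = i
    · subst hbi
      rw [Function.update_self, Function.update_of_ne hab]
      intro h
      exact hc (Finset.mem_image.2 ⟨a, Finset.mem_filter.2 ⟨ha, hab.symm, hsymm _ _ hm⟩, h⟩)
    · rw [Function.update_of_ne hai, Function.update_of_ne hbi]
      exact hf a (Finset.mem_erase.2 ⟨hai, ha⟩) b (Finset.mem_erase.2 ⟨hbi, hb⟩) hab hm

end Pool.Agent.Lib.Pb0fea6
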